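import Mathlib

set_option autoImplicit false

namespace Pool.Agent.Results.MP_208885_nt.InfinitelyManyMultiplesOfThree

/-- The set `𝒪(m)` of minimal `m`-Markoff triples: positive integers `a ≤ b ≤ c` with
`a² + b² + c² = 3abc + m` and `3ab - c ≤ 0`. -/
def O (m : ℕ) : Set (ℕ × ℕ × ℕ) :=
  {p | 0 < p.1 ∧ 0 < p.2.1 ∧ 0 < p.2.2 ∧
    p.1 ^ 2 + p.2.1 ^ 2 + p.2.2 ^ 2 = 3 * p.1 * p.2.1 * p.2.2 + m ∧
    p.1 ≤ p.2.1 ∧ p.2.1 ≤ p.2.2 ∧ 3 * p.1 * p.2.1 ≤ p.2.2}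

/-- ordered triples of distinct positive integers with the given value -/
def Tm (m : ℕ) : Set (ℕ × ℕ × ℕ) :=
  {p | 0 < p.1 ∧ p.1 < p.2.1 ∧ p.2.1 < p.2.2 ∧
    p.1 ^ 2 + p.2.1 ^ 2 + p.2.2 ^ 2 + 3 * p.1 * p.2.1 * p.2.2 = m}

theorem Tm_finite (m : ℕ) : (Tm m).Finite := by
  refine (Set.finite_Icc (0 : ℕ × ℕ × ℕ) (m, m, m)).subset ?_
  rintro ⟨x, y, z⟩ ⟨h0, h1, h2, h3⟩
  simp only at h0 h1 h2 h3
  have hx : x ≤ x ^ 2 := Nat.le_self_pow (by norm_num) x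
  have hy : y ≤ y ^ 2 := Nat.le_self_pow (by norm_num) y
  have hz : z ≤ z ^ 2 := Nat.le_self_pow (by norm_num) z
  have hn : 0 ≤ 3 * x * y * z := Nat.zero_le _
  exact ⟨⟨Nat.zero_le _, Nat.zero_le _, Nat.zero_le _⟩, ⟨by show x ≤ m; omega,
    by show y ≤ m; omega, by show z ≤ m; omega⟩⟩

def f1 (p : ℕ × ℕ × ℕ) : ℕ × ℕ × ℕ := (p.1, p.2.1, 3 * p.1 * p.2.1 + p.2.2)
def f2 (p : ℕ × ℕ × ℕ) : ℕ × ℕ × ℕ := (p.1, p.2.2, 3 * p.1 * p.2.2 + p.2.1)
def f3 (p : ℕ × ℕ × ℕ) : ℕ × ℕ × ℕ := (p.2.1, p.2.2, 3 * p.2.1 * p.2.2 + p.1)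

theorem f1_inj : Function.Injective f1 := by
  rintro ⟨x, y, z⟩ ⟨x', y', z'⟩ h
  simp only [f1, Prod.mk.injEq] at h
  obtain ⟨rfl, rfl, h3⟩ := h
  have : z = z' := by omega
  rw [this]

theorem f2_inj : Function.Injective f2 := by
  rintro ⟨x, y, z⟩ ⟨x', y', z'⟩ h
  simp only [f2, Prod.mk.injEq] at h
  obtain ⟨rfl, rfl, h3⟩ := h
  have : y = y' := by omega
  rw [this]

theorem f3_inj : Function.Injective f3 := by
  rintro ⟨x, y, z⟩ ⟨x', y', z'⟩ h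
  simp only [f3, Prod.mk.injEq] at h
  obtain ⟨rfl, rfl, h3⟩ := h
  have : x = x' := by omega
  rw [this]

/-- the structure of the minimal triples when there are no special ones -/
theorem O_eq {m : ℕ} (h1 : ∀ a b : ℕ, a ^ 2 + b ^ 2 ≠ m)
    (h2 : ∀ a b : ℕ, 0 < a → 0 < b → 2 * a ^ 2 + b ^ 2 + 3 * a ^ 2 * b ≠ m) :
    O m = (f1 '' Tm m ∪ f2 '' Tm m) ∪ f3 '' Tm m := by
  ext ⟨a, b, c⟩
  constructor
  · rintro ⟨ha, hb, hc, heq, hab, hbc, hmin⟩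
    simp only at ha hb hc heq hab hbc hmin
    obtain ⟨φ, rfl⟩ : ∃ φ, c = 3 * a * b + φ := ⟨c - 3 * a * b, by omega⟩
    have hF : a ^ 2 + b ^ 2 + φ ^ 2 + 3 * a * b * φ = m := by nlinarith
    have hφ : 0 < φ := by
      rcases Nat.eq_zero_or_pos φ with h | h
      · exfalso
        rw [h] at hF
        exact h1 a b (by linarith)
      · exact h
    have hab' : a ≠ b := by
      rintro rfl
      apply h2 a φ ha hφ
      rw [← hF]; ring
    have haφ : a ≠ φ := by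
      rintro rfl
      apply h2 a b ha hb
      rw [← hF]; ring
    have hbφ : b ≠ φ := by
      rintro rfl
      apply h2 b a hb ha
      rw [← hF]; ring
    rcases Nat.lt_or_ge b φ with h | h
    · left; left
      exact ⟨(a, b, φ), ⟨ha, by show a < b; omega, h, by show _ = m; rw [← hF]⟩, rfl⟩
    · rcases Nat.lt_or_ge a φ with h' | h'
      · left; right
        exact ⟨(a, φ, b), ⟨ha, h', by show φ < b; omega, by show _ = m; rw [← hF]; ring⟩, rfl⟩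
      · right
        exact ⟨(φ, a, b), ⟨hφ, by show φ < a; omega, by show a < b; omega,
          by show _ = m; rw [← hF]; ring⟩, rfl⟩
  · rintro ((⟨⟨x, y, z⟩, ⟨hx, hxy, hyz, hF⟩, he⟩ | ⟨⟨x, y, z⟩, ⟨hx, hxy, hyz, hF⟩, he⟩) |
      ⟨⟨x, y, z⟩, ⟨hx, hxy, hyz, hF⟩, he⟩)
    · simp only [f1, Prod.mk.injEq] at he hx hxy hyz hF
      obtain ⟨rfl, rfl, rfl⟩ := he
      refine ⟨hx, by show 0 < y; omega, by dsimp only; omega, ?_, hxy.le, ?_, Nat.le_add_right _ _⟩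
      · show x ^ 2 + y ^ 2 + (3 * x * y + z) ^ 2 = 3 * x * y * (3 * x * y + z) + m
        rw [← hF]; ring
      · show y ≤ 3 * x * y + z
        omega
    · simp only [f2, Prod.mk.injEq] at he hx hxy hyz hF
      obtain ⟨rfl, rfl, rfl⟩ := he
      refine ⟨hx, by show 0 < z; omega, by dsimp only; omega, ?_, by show x ≤ z; omega, ?_,
        Nat.le_add_right _ _⟩
      · show x ^ 2 + z ^ 2 + (3 * x * z + y) ^ 2 = 3 * x * z * (3 * x * z + y) + m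
        rw [← hF]; ring
      · show z ≤ 3 * x * z + y
        have : 1 * z ≤ x * z := Nat.mul_le_mul_right _ hx
        nlinarith
    · simp only [f3, Prod.mk.injEq] at he hx hxy hyz hF
      obtain ⟨rfl, rfl, rfl⟩ := he
      refine ⟨by show 0 < y; omega, by show 0 < z; omega, by dsimp only; omega, ?_, hyz.le, ?_,
        Nat.le_add_right _ _⟩
      · show y ^ 2 + z ^ 2 + (3 * y * z + x) ^ 2 = 3 * y * z * (3 * y * z + x) + m
        rw [← hF]; ring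
      · show z ≤ 3 * y * z + x
        have : 1 * z ≤ y * z := Nat.mul_le_mul_right _ (by omega)
        nlinarith

theorem three_dvd {m : ℕ} (h1 : ∀ a b : ℕ, a ^ 2 + b ^ 2 ≠ m)
    (h2 : ∀ a b : ℕ, 0 < a → 0 < b → 2 * a ^ 2 + b ^ 2 + 3 * a ^ 2 * b ≠ m) :
    (O m).Finite ∧ 3 ∣ (O m).ncard := by
  have hfin := Tm_finite m
  have hd12 : Disjoint (f1 '' Tm m) (f2 '' Tm m) := by
    rw [Set.disjoint_left]
    rintro _ ⟨⟨x, y, z⟩, ⟨hx, hxy, hyz, hF⟩, rfl⟩ ⟨⟨x', y', z'⟩, ⟨hx', hxy', hyz', hF'⟩, he⟩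
    simp only [f1, f2, Prod.mk.injEq] at he hx hxy hyz hx' hxy' hyz'
    obtain ⟨rfl, rfl, h3⟩ := he
    omega
  have hd13 : Disjoint (f1 '' Tm m) (f3 '' Tm m) := by
    rw [Set.disjoint_left]
    rintro _ ⟨⟨x, y, z⟩, ⟨hx, hxy, hyz, hF⟩, rfl⟩ ⟨⟨x', y', z'⟩, ⟨hx', hxy', hyz', hF'⟩, he⟩
    simp only [f1, f3, Prod.mk.injEq] at he hx hxy hyz hx' hxy' hyz'
    obtain ⟨rfl, rfl, h3⟩ := he
    omega
  have hd23 : Disjoint (f2 '' Tm m) (f3 '' Tm m) := by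
    rw [Set.disjoint_left]
    rintro _ ⟨⟨x, y, z⟩, ⟨hx, hxy, hyz, hF⟩, rfl⟩ ⟨⟨x', y', z'⟩, ⟨hx', hxy', hyz', hF'⟩, he⟩
    simp only [f2, f3, Prod.mk.injEq] at he hx hxy hyz hx' hxy' hyz'
    obtain ⟨rfl, rfl, h3⟩ := he
    omega
  rw [O_eq h1 h2]
  constructor
  · exact ((hfin.image _).union (hfin.image _)).union (hfin.image _)
  · rw [Set.ncard_union_eq (Set.disjoint_union_left.mpr ⟨hd13, hd23⟩)
      ((hfin.image _).union (hfin.image _)) (hfin.image _),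
      Set.ncard_union_eq hd12 (hfin.image _) (hfin.image _),
      Set.ncard_image_of_injective _ f1_inj, Set.ncard_image_of_injective _ f2_inj,
      Set.ncard_image_of_injective _ f3_inj]
    exact ⟨(Tm m).ncard, by ring⟩

/-- the family of values -/
def g (p : ℕ × ℕ) : ℕ :=
  1 + (8 * p.1 + 1) ^ 2 + (8 * p.2 + 1) ^ 2 + 3 * (8 * p.1 + 1) * (8 * p.2 + 1)

theorem g_mod (p : ℕ × ℕ) : g p % 8 = 6 := by
  unfold g
  have h1 : (8 * p.1 + 1) ^ 2 = 8 * (8 * p.1 ^ 2 + 2 * p.1) + 1 := by ring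
  have h2 : (8 * p.2 + 1) ^ 2 = 8 * (8 * p.2 ^ 2 + 2 * p.2) + 1 := by ring
  have h3 : 3 * (8 * p.1 + 1) * (8 * p.2 + 1) = 8 * (24 * p.1 * p.2 + 3 * p.1 + 3 * p.2) + 3 := by
    ring
  rw [h1, h2, h3]
  omega

theorem not_two_squares {m : ℕ} (hm : m % 8 = 6) (a b : ℕ) : a ^ 2 + b ^ 2 ≠ m := by
  rintro rfl
  have ha : a % 8 = 0 ∨ a % 8 = 1 ∨ a % 8 = 2 ∨ a % 8 = 3 ∨ a % 8 = 4 ∨ a % 8 = 5 ∨ a % 8 = 6 ∨
    a % 8 = 7 := by omega
  have hb : b % 8 = 0 ∨ b % 8 = 1 ∨ b % 8 = 2 ∨ b % 8 = 3 ∨ b % 8 = 4 ∨ b % 8 = 5 ∨ b % 8 = 6 ∨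
    b % 8 = 7 := by omega
  rcases ha with ha | ha | ha | ha | ha | ha | ha | ha <;>
  rcases hb with hb | hb | hb | hb | hb | hb | hb | hb <;>
  simp [Nat.add_mod, Nat.pow_mod, ha, hb] at hm

/-- the key algebraic fact about collisions -/
theorem collision {i j i' j' : ℕ} (he : g (i', j') = g (i, j)) :
    8 * (2 * ((j : ℤ) - j') + 3 * ((i : ℤ) - i')) *
      ((2 * (8 * (j : ℤ) + 1) + 3 * (8 * i + 1)) + (2 * (8 * (j' : ℤ) + 1) + 3 * (8 * i' + 1))) =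
    5 * ((8 * (i : ℤ) + 1) ^ 2 - (8 * (i' : ℤ) + 1) ^ 2) := by
  have h : ((g (i', j') : ℕ) : ℤ) = ((g (i, j) : ℕ) : ℤ) := by rw [he]
  unfold g at h
  push_cast at h
  linear_combination (-4 : ℤ) * h

theorem main_count (r N : ℕ) (hr : 700 ≤ r) (hrN : N < r)
    (H : ∀ m : ℕ, N < m → m % 8 = 6 → (∃ y z : ℕ, 1 < y ∧ y < z ∧
      1 + y ^ 2 + z ^ 2 + 3 * y * z = m) →
      ∃ a b : ℕ, 0 < a ∧ 0 < b ∧ 2 * a ^ 2 + b ^ 2 + 3 * a ^ 2 * b = m) : False := by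
  classical
  set t := r ^ 2 with ht
  have hr1 : 1 ≤ r := by omega
  have ht1 : 1 ≤ t := Nat.one_le_iff_ne_zero.mpr (by positivity)
  have hrt : r ≤ t := Nat.le_self_pow (by norm_num) r
  let Fam : Finset (ℕ × ℕ) := Finset.Icc 1 (t ^ 2) ×ˢ Finset.Ico (4 * t ^ 3) (8 * t ^ 3)
  have hFcard : Fam.card = 4 * t ^ 5 := by
    simp only [Fam, Finset.card_product, Nat.card_Icc, Nat.card_Ico]
    have h1 : 8 * t ^ 3 - 4 * t ^ 3 = 4 * t ^ 3 := by omega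
    rw [h1, Nat.add_sub_cancel]
    ring
  let Bad : Finset (ℕ × ℕ) := Fam.filter (fun p => ∃ p' ∈ Fam, p'.1 < p.1 ∧ g p' = g p)
  have hmemFam : ∀ p : ℕ × ℕ, p ∈ Fam ↔ (1 ≤ p.1 ∧ p.1 ≤ t ^ 2) ∧ 4 * t ^ 3 ≤ p.2 ∧
      p.2 < 8 * t ^ 3 := by
    intro p
    simp only [Fam, Finset.mem_product, Finset.mem_Icc, Finset.mem_Ico]
  -- bound on the bad set
  have hBad : Bad.card ≤ t ^ 5 := by
    have hwit : ∀ p ∈ Bad, ∃ p' : ℕ × ℕ, p' ∈ Fam ∧ p'.1 < p.1 ∧ g p' = g p := by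
      intro p hp
      exact (Finset.mem_filter.mp hp).2
    choose! w hw1 hw2 hw3 using hwit
    let v : ℕ × ℕ → ℤ := fun p => 2 * ((p.2 : ℤ) - (w p).2) + 3 * ((p.1 : ℤ) - (w p).1)
    have hcoll : ∀ p ∈ Bad, 8 * v p * ((2 * (8 * (p.2 : ℤ) + 1) + 3 * (8 * p.1 + 1)) +
        (2 * (8 * ((w p).2 : ℤ) + 1) + 3 * (8 * (w p).1 + 1))) =
        5 * ((8 * (p.1 : ℤ) + 1) ^ 2 - (8 * ((w p).1 : ℤ) + 1) ^ 2) := by
      intro p hp
      exact collision (hw3 p hp)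
    have hvpos : ∀ p ∈ Bad, 1 ≤ v p ∧ v p ≤ t := by
      intro p hp
      have h1 := hcoll p hp
      have h2 : ((w p).1 : ℤ) < p.1 := by exact_mod_cast hw2 p hp
      have hpF := (hmemFam p).mp (Finset.mem_filter.mp hp).1
      have hwF := (hmemFam (w p)).mp (hw1 p hp)
      have hS : 128 * (t : ℤ) ^ 3 ≤ (2 * (8 * (p.2 : ℤ) + 1) + 3 * (8 * p.1 + 1)) +
        (2 * (8 * ((w p).2 : ℤ) + 1) + 3 * (8 * (w p).1 + 1)) := by
        have h3 : (4 * (t : ℤ) ^ 3) ≤ p.2 := by exact_mod_cast hpF.2.1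
        have h4 : (4 * (t : ℤ) ^ 3) ≤ (w p).2 := by exact_mod_cast hwF.2.1
        have h5 : (0 : ℤ) ≤ p.1 := by positivity
        have h6 : (0 : ℤ) ≤ (w p).1 := by positivity
        linarith
      set S := (2 * (8 * (p.2 : ℤ) + 1) + 3 * (8 * p.1 + 1)) +
        (2 * (8 * ((w p).2 : ℤ) + 1) + 3 * (8 * (w p).1 + 1)) with hSdef
      have ht3 : (0 : ℤ) < (t : ℤ) ^ 3 := by positivity
      have hSpos : 0 < S := by linarith
      have hw0 : (0 : ℤ) ≤ (w p).1 := by positivity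
      have hRpos : 0 < 5 * ((8 * (p.1 : ℤ) + 1) ^ 2 - (8 * ((w p).1 : ℤ) + 1) ^ 2) := by nlinarith
      have hv1 : 1 ≤ v p := by
        by_contra hcon
        push Not at hcon
        have : 8 * v p * S ≤ 0 := mul_nonpos_of_nonpos_of_nonneg (by linarith) hSpos.le
        linarith
      refine ⟨hv1, ?_⟩
      have hR : 5 * ((8 * (p.1 : ℤ) + 1) ^ 2 - (8 * ((w p).1 : ℤ) + 1) ^ 2) ≤ 405 * (t : ℤ) ^ 4 := by
        have h3 : (p.1 : ℤ) ≤ (t : ℤ) ^ 2 := by exact_mod_cast hpF.1.2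
        have h4 : (1 : ℤ) ≤ (t : ℤ) ^ 2 := by
          have : (1 : ℤ) ≤ t := by exact_mod_cast ht1
          nlinarith
        have h5 : (8 * (p.1 : ℤ) + 1) ≤ 9 * (t : ℤ) ^ 2 := by linarith
        have h6 : (8 * (p.1 : ℤ) + 1) ^ 2 ≤ (9 * (t : ℤ) ^ 2) ^ 2 :=
          pow_le_pow_left₀ (by positivity) h5 2
        have h7 : 0 ≤ (8 * ((w p).1 : ℤ) + 1) ^ 2 := sq_nonneg _
        nlinarith
      by_contra hcon
      push Not at hcon
      have h8 : (8 * (t : ℤ)) * (128 * (t : ℤ) ^ 3) ≤ 8 * v p * S :=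
        mul_le_mul (by linarith) hS (by positivity) (by linarith)
      have h9 : (0 : ℤ) < (t : ℤ) ^ 4 := by positivity
      have h10 : (8 * (t : ℤ)) * (128 * (t : ℤ) ^ 3) = 1024 * (t : ℤ) ^ 4 := by ring
      linarith
    let tgt : Finset (ℕ × ℕ × ℕ) := Finset.Icc 1 (t ^ 2) ×ˢ Finset.Icc 1 (t ^ 2) ×ˢ Finset.Icc 1 t
    have htgt : tgt.card = t ^ 5 := by
      simp only [tgt, Finset.card_product, Nat.card_Icc, Nat.add_sub_cancel]
      ring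
    rw [← htgt]
    apply Finset.card_le_card_of_injOn (fun p => (p.1, (w p).1, (v p).toNat))
    · intro p hp
      have hp' : p ∈ Bad := hp
      have hpF := (hmemFam p).mp (Finset.mem_filter.mp hp').1
      have hwF := (hmemFam (w p)).mp (hw1 p hp')
      have hv := hvpos p hp'
      simp only [tgt, Finset.coe_product, Set.mem_prod, Finset.coe_Icc, Set.mem_Icc]
      refine ⟨hpF.1, hwF.1, ?_, ?_⟩ <;> omega
    · rintro ⟨i, j⟩ hp ⟨i', j'⟩ hp' he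
      simp only [Prod.mk.injEq] at he
      obtain ⟨rfl, he2, he3⟩ := he
      have hv := hvpos _ hp
      have hv' := hvpos _ hp'
      have hvv : v (i, j) = v (i, j') := by omega
      have h1 := hcoll _ hp
      have h2 := hcoll _ hp'
      rw [← he2, ← hvv] at h2
      have h3 : (v (i, j)) = 2 * ((j : ℤ) - (w (i, j)).2) + 3 * ((i : ℤ) - (w (i, j)).1) := rfl
      have h4 : (v (i, j)) = 2 * ((j' : ℤ) - (w (i, j')).2) + 3 * ((i : ℤ) - (w (i, j)).1) := by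
        rw [hvv, he2]
      simp only at h1 h2
      have h5 : 8 * v (i, j) * (32 * ((j : ℤ) - j')) = 0 := by
        have h6 : (w (i, j)).2 = (j : ℤ) - (v (i, j) - 3 * ((i : ℤ) - (w (i, j)).1)) / 2 := by
          have : v (i, j) - 3 * ((i : ℤ) - (w (i, j)).1) = 2 * ((j : ℤ) - (w (i, j)).2) := by
            linarith
          rw [this, Int.mul_ediv_cancel_left _ (by norm_num)]
          ring
        have h7 : (w (i, j')).2 = (j' : ℤ) - (v (i, j) - 3 * ((i : ℤ) - (w (i, j)).1)) / 2 := by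
          have : v (i, j) - 3 * ((i : ℤ) - (w (i, j)).1) = 2 * ((j' : ℤ) - (w (i, j')).2) := by
            linarith
          rw [this, Int.mul_ediv_cancel_left _ (by norm_num)]
          ring
        rw [h6] at h1
        rw [h7] at h2
        linear_combination h1 - h2
      have h6 : (j : ℤ) - j' = 0 := by
        rcases mul_eq_zero.mp h5 with h | h
        · omega
        · omega
      have h7 : j = j' := by omega
      rw [h7]
  -- good part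
  let Good : Finset (ℕ × ℕ) := Fam \ Bad
  have hGoodcard : 3 * t ^ 5 ≤ Good.card := by
    have h1 : Good.card = Fam.card - Bad.card :=
      Finset.card_sdiff_of_subset (Finset.filter_subset _ _)
    omega
  have hinj : Set.InjOn g (Good : Set (ℕ × ℕ)) := by
    rintro ⟨i, j⟩ hp ⟨i', j'⟩ hp' he
    have hpG := Finset.mem_sdiff.mp (Finset.mem_coe.mp hp)
    have hpG' := Finset.mem_sdiff.mp (Finset.mem_coe.mp hp')
    rcases Nat.lt_trichotomy i i' with h | h | h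
    · exfalso
      exact hpG'.2 (Finset.mem_filter.mpr ⟨hpG'.1, (i, j), hpG.1, h, he⟩)
    · subst h
      have hjj : j = j' := by
        unfold g at he
        simp only at he
        by_contra hne
        rcases Nat.lt_or_gt_of_ne hne with hlt | hlt
        · have h1 : (8 * j + 1) ^ 2 < (8 * j' + 1) ^ 2 := Nat.pow_lt_pow_left (by omega) (by norm_num)
          have h2 : 3 * (8 * i + 1) * (8 * j + 1) ≤ 3 * (8 * i + 1) * (8 * j' + 1) :=
            Nat.mul_le_mul_left _ (by omega)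
          omega
        · have h1 : (8 * j' + 1) ^ 2 < (8 * j + 1) ^ 2 := Nat.pow_lt_pow_left (by omega) (by norm_num)
          have h2 : 3 * (8 * i + 1) * (8 * j' + 1) ≤ 3 * (8 * i + 1) * (8 * j + 1) :=
            Nat.mul_le_mul_left _ (by omega)
          omega
      rw [hjj]
    · exfalso
      exact hpG.2 (Finset.mem_filter.mpr ⟨hpG.1, (i', j'), hpG'.1, h, he.symm⟩)
  -- upper bound on the values
  have hgle : ∀ p ∈ Fam, g p ≤ 6000 * t ^ 6 := by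
    rintro ⟨i, j⟩ hp
    obtain ⟨⟨h1, h2⟩, h3, h4⟩ := (hmemFam _).mp hp
    simp only at h1 h2 h3 h4
    have ht2 : 1 ≤ t ^ 2 := Nat.one_le_iff_ne_zero.mpr (by positivity)
    have hy : 8 * i + 1 ≤ 9 * t ^ 2 := by omega
    have hz : 8 * j + 1 ≤ 64 * t ^ 3 := by omega
    have e1 : (8 * i + 1) ^ 2 ≤ (9 * t ^ 2) ^ 2 := Nat.pow_le_pow_left hy 2
    have e2 : (8 * j + 1) ^ 2 ≤ (64 * t ^ 3) ^ 2 := Nat.pow_le_pow_left hz 2
    have e3 : 3 * (8 * i + 1) * (8 * j + 1) ≤ 3 * (9 * t ^ 2) * (64 * t ^ 3) :=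
      Nat.mul_le_mul (Nat.mul_le_mul_left _ hy) hz
    have e4 : (9 * t ^ 2) ^ 2 = 81 * t ^ 4 := by ring
    have e5 : (64 * t ^ 3) ^ 2 = 4096 * t ^ 6 := by ring
    have e6 : 3 * (9 * t ^ 2) * (64 * t ^ 3) = 1728 * t ^ 5 := by ring
    have e7 : t ^ 5 * 1 ≤ t ^ 5 * t := Nat.mul_le_mul_left _ ht1
    have e8 : t ^ 4 * 1 ≤ t ^ 4 * t ^ 2 := Nat.mul_le_mul_left _ ht2
    have e9 : t ^ 5 * t = t ^ 6 := by ring
    have e10 : t ^ 4 * t ^ 2 = t ^ 6 := by ring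
    have e11 : 1 ≤ t ^ 6 := Nat.one_le_iff_ne_zero.mpr (by positivity)
    unfold g
    show 1 + (8 * i + 1) ^ 2 + (8 * j + 1) ^ 2 + 3 * (8 * i + 1) * (8 * j + 1) ≤ 6000 * t ^ 6
    omega
  -- the pairs
  set s := r ^ 3 with hs
  have hs1 : 1 ≤ s := Nat.one_le_iff_ne_zero.mpr (by positivity)
  let P1 : Finset (ℕ × ℕ) := Finset.Icc 1 s ×ˢ Finset.Icc 1 (78 * t ^ 3)
  let P2 : Finset (Σ _ : ℕ, ℕ) :=
    (Finset.Ioc s (55 * t ^ 3)).sigma (fun a => Finset.Icc 1 (2000 * t ^ 6 / a ^ 2))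
  have hP1 : P1.card = s * (78 * t ^ 3) := by
    simp only [P1, Finset.card_product, Nat.card_Icc, Nat.add_sub_cancel]
  have hP2 : (P2.card : ℝ) ≤ 2000 * (t : ℝ) ^ 6 / s := by
    have h1 : (P2.card : ℝ) = ∑ a ∈ Finset.Ioc s (55 * t ^ 3), ((2000 * t ^ 6 / a ^ 2 : ℕ) : ℝ) := by
      simp only [P2, Finset.card_sigma, Nat.card_Icc, Nat.add_sub_cancel]
      push_cast
      rfl
    rw [h1]
    have hsle : s ≤ 55 * t ^ 3 := by
      have : s ≤ t ^ 3 := by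
        rw [hs, ht, ← pow_mul]
        exact Nat.pow_le_pow_right hr1 (by norm_num)
      omega
    calc ∑ a ∈ Finset.Ioc s (55 * t ^ 3), ((2000 * t ^ 6 / a ^ 2 : ℕ) : ℝ)
        ≤ ∑ a ∈ Finset.Ioc s (55 * t ^ 3), 2000 * (t : ℝ) ^ 6 * ((a : ℝ) ^ 2)⁻¹ := by
          apply Finset.sum_le_sum
          intro a _
          have := Nat.cast_div_le (α := ℝ) (m := 2000 * t ^ 6) (n := a ^ 2)
          push_cast at this
          rw [← div_eq_mul_inv]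
          exact_mod_cast this
      _ = 2000 * (t : ℝ) ^ 6 * ∑ a ∈ Finset.Ioc s (55 * t ^ 3), ((a : ℝ) ^ 2)⁻¹ := by
          rw [Finset.mul_sum]
      _ ≤ 2000 * (t : ℝ) ^ 6 * ((s : ℝ)⁻¹ - ((55 * t ^ 3 : ℕ) : ℝ)⁻¹) :=
          mul_le_mul_of_nonneg_left (sum_Ioc_inv_sq_le_sub (by omega) hsle) (by positivity)
      _ ≤ 2000 * (t : ℝ) ^ 6 / s := by
          rw [div_eq_mul_inv]
          apply mul_le_mul_of_nonneg_left _ (by positivity)
          have : (0 : ℝ) ≤ ((55 * t ^ 3 : ℕ) : ℝ)⁻¹ := by positivity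
          linarith
  let h : ℕ × ℕ → ℕ := fun p => 2 * p.1 ^ 2 + p.2 ^ 2 + 3 * p.1 ^ 2 * p.2
  have hsub : Good.image g ⊆ P1.image h ∪ P2.image (fun q => h (q.1, q.2)) := by
    intro m hm
    obtain ⟨⟨i, j⟩, hp, rfl⟩ := Finset.mem_image.mp hm
    have hpF := (Finset.mem_sdiff.mp hp).1
    obtain ⟨⟨h1, h2⟩, h3, h4⟩ := (hmemFam _).mp hpF
    simp only at h1 h2 h3 h4
    have hgm := hgle _ hpF
    have ht23 : t ^ 2 ≤ t ^ 3 := Nat.pow_le_pow_right ht1 (by norm_num)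
    have htt : t ≤ t ^ 3 := Nat.le_self_pow (by norm_num) t
    have hgN : N < g (i, j) := by
      have : 8 * j + 1 ≤ (8 * j + 1) ^ 2 := Nat.le_self_pow (by norm_num) _
      unfold g
      show N < 1 + (8 * i + 1) ^ 2 + (8 * j + 1) ^ 2 + 3 * (8 * i + 1) * (8 * j + 1)
      omega
    obtain ⟨a, b, ha, hb, hab⟩ := H (g (i, j)) hgN (g_mod _)
      ⟨8 * i + 1, 8 * j + 1, by omega, by
        have : 0 < t ^ 3 := by positivity
        omega, rfl⟩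
    rw [← hab] at hgm
    have hb2 : b ≤ 78 * t ^ 3 := by
      by_contra hcon
      push Not at hcon
      have h5 : (78 * t ^ 3) ^ 2 < b ^ 2 := Nat.pow_lt_pow_left hcon (by norm_num)
      have h6 : (78 * t ^ 3) ^ 2 = 6084 * t ^ 6 := by ring
      have h7 : 0 ≤ 3 * a ^ 2 * b := Nat.zero_le _
      omega
    have ha2 : a ≤ 55 * t ^ 3 := by
      by_contra hcon
      push Not at hcon
      have h5 : (55 * t ^ 3) ^ 2 < a ^ 2 := Nat.pow_lt_pow_left hcon (by norm_num)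
      have h6 : (55 * t ^ 3) ^ 2 = 3025 * t ^ 6 := by ring
      have h7 : 0 ≤ 3 * a ^ 2 * b := Nat.zero_le _
      omega
    rw [Finset.mem_union]
    by_cases has : a ≤ s
    · left
      refine Finset.mem_image.mpr ⟨(a, b), ?_, hab⟩
      simp only [P1, Finset.mem_product, Finset.mem_Icc]
      exact ⟨⟨ha, has⟩, hb, hb2⟩
    · right
      refine Finset.mem_image.mpr ⟨⟨a, b⟩, ?_, hab⟩
      simp only [P2, Finset.mem_sigma, Finset.mem_Ioc, Finset.mem_Icc]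
      refine ⟨⟨by omega, ha2⟩, hb, ?_⟩
      rw [Nat.le_div_iff_mul_le (by positivity)]
      have h5 : 3 * a ^ 2 * b = 3 * (b * a ^ 2) := by ring
      omega
  have hcard : 3 * t ^ 5 ≤ P1.card + P2.card := by
    calc 3 * t ^ 5 ≤ Good.card := hGoodcard
      _ = (Good.image g).card := (Finset.card_image_of_injOn hinj).symm
      _ ≤ (P1.image h ∪ P2.image (fun q => h (q.1, q.2))).card := Finset.card_le_card hsub
      _ ≤ (P1.image h).card + (P2.image (fun q => h (q.1, q.2))).card := Finset.card_union_le _ _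
      _ ≤ P1.card + P2.card := Nat.add_le_add Finset.card_image_le Finset.card_image_le
  have hfinal : 3 * (t : ℝ) ^ 5 ≤ s * (78 * (t : ℝ) ^ 3) + 2000 * (t : ℝ) ^ 6 / s := by
    have h1 : ((3 * t ^ 5 : ℕ) : ℝ) ≤ ((P1.card + P2.card : ℕ) : ℝ) := by exact_mod_cast hcard
    rw [hP1] at h1
    push_cast at h1
    linarith
  have hr0 : (0 : ℝ) < r := by exact_mod_cast (by omega : 0 < r)
  have e1 : (t : ℝ) = (r : ℝ) ^ 2 := by rw [ht]; push_cast; ring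
  have e2 : (s : ℝ) = (r : ℝ) ^ 3 := by rw [hs]; push_cast; ring
  rw [e1, e2] at hfinal
  have e3 : (r : ℝ) ^ 3 * (78 * ((r : ℝ) ^ 2) ^ 3) + 2000 * ((r : ℝ) ^ 2) ^ 6 / (r : ℝ) ^ 3 =
      2078 * (r : ℝ) ^ 9 := by
    field_simp
    ring
  have e4 : 3 * ((r : ℝ) ^ 2) ^ 5 = 3 * r * (r : ℝ) ^ 9 := by ring
  rw [e3, e4] at hfinal
  have h9 : (0 : ℝ) < (r : ℝ) ^ 9 := by positivity
  have h10 := le_of_mul_le_mul_right hfinal h9
  have h11 : (700 : ℝ) ≤ r := by exact_mod_cast hr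
  linarith

/-- There are infinitely many `m > 1` for which the number of minimal `m`-Markoff triples is a
positive multiple of `3`. -/
theorem result : {m : ℕ | 1 < m ∧ (O m).Finite ∧ (O m).Nonempty ∧ 3 ∣ (O m).ncard}.Infinite := by
  rw [Set.infinite_iff_exists_gt]
  intro N
  by_contra hcon
  push Not at hcon
  refine main_count (N + 700) N (by omega) (by omega) ?_
  rintro m hNm hm8 ⟨y, z, hy, hyz, hF⟩
  by_contra hno
  push Not at hno
  have h1 : ∀ a b : ℕ, a ^ 2 + b ^ 2 ≠ m := not_two_squares hm8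
  have h2 : ∀ a b : ℕ, 0 < a → 0 < b → 2 * a ^ 2 + b ^ 2 + 3 * a ^ 2 * b ≠ m := hno
  obtain ⟨hfin, hdvd⟩ := three_dvd h1 h2
  refine absurd (hcon m ⟨by omega, hfin, ?_, hdvd⟩) (by omega)
  rw [O_eq h1 h2]
  refine ⟨f1 (1, y, z), Or.inl (Or.inl ⟨(1, y, z), ⟨one_pos, hy, hyz, ?_⟩, rfl⟩)⟩
  show 1 ^ 2 + y ^ 2 + z ^ 2 + 3 * 1 * y * z = m
  rw [← hF]; ring

end Pool.Agent.Results.MP_208885_nt.InfinitelyManyMultiplesOfThree
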